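import Mathlib
import Pool.Agent.U474.FN.Ord

/-!
# `ℓ²`-homology above half the dimension, and the faces with large links

Let `L` be the flag complex of a finite graph `G`, let `W = W G` be the right-angled Coxeter group and let `W_A` be its
special subgroup for a set `A` of vertices (the right-angled Coxeter group of `G.induce A`). If `L` is a combinatorial
sphere of dimension `n - 1` then `W_A` acts properly and cocompactly on a contractible `n`-manifold with boundary, so
`cadim (W_A) ≤ n` and Q1 predicts `b_i^(2)(W_A) = 0` for all `i > n / 2`.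

We show that nonzero `ℓ²`-homology in the degree `i` forces many simplices, as many as in the join of `i` copies of
three points, whose links again have special subgroups with nonzero `ℓ²`-homology (in the degree `i - k` for the
simplices with `k` vertices). This is an `ℓ²`-analogue of the theorem that a flag complex with nonzero homology in the
degree `i - 1` has at least as many faces as the cross-polytope with `2 i` vertices. In a flag homology sphere the
links of these simplices have to be large. So if there are only few simplices with large links, globally or among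
the smaller neighbours of each vertex for some numbering, then Q1 holds for all special subgroups, and the Singer
conjecture holds for `W`. There is no condition on the number of vertices of `L`, and none on the simplices with
small links. For example (`n = 5`), Q1 holds for the special subgroups of `W` and all `b_i^(2)(W)` vanish if `L` is a
flag homology `4`-sphere with at most `8` vertices of degree `≥ 10`, or with at most `26` edges whose link is not an
octahedron, or for which the graph of the edges whose link is not an octahedron is `5`-degenerate (for example planar).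

Proof. Let `b_i^(2)(W_A) ≠ 0`, `i ≥ 1`, and let `B ⊆ A` be minimal with `b_i^(2)(W_B) ≠ 0`. The Mayer-Vietoris
sequence shows `b_{i-1}^(2)(W_(B ∩ lk v)) ≠ 0` for all `v ∈ B`, and `B` has at least `3 i` elements (library of
helper13). Count the pairs `(v, T)`, `v ∈ T`, by induction on `k`.
-/

set_option autoImplicit false

namespace Pool.Agent.Results.MP_ea75ba_gt.FaceNumbers

open Pool.Agent.W907.SG Pool.Agent.W907.SM Pool.Agent.TH652.Above Pool.Agent.Y132.SI Pool.Agent.N13.EU
open Pool.Agent.U474.FN

/-- `T` is a simplex with `k` vertices of the flag complex of `G`, contained in `A` -/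
def Face {V : Type} (G : SimpleGraph V) (A : Finset V) (k : ℕ) (T : Finset V) : Prop :=
  G.IsClique (T : Set V) ∧ T ⊆ A ∧ T.card = k

/-- the number of the elements of `A` which are adjacent to all elements of `T`, that is, of the vertices of the link
of `T` in `A` -/
noncomputable def lkCard {V : Type} (G : SimpleGraph V) (A T : Finset V) : ℕ :=
  {a | a ∈ A ∧ ∀ t ∈ T, G.Adj a t}.ncard

/-- for some `k ≤ i` there are fewer than `3^k (i choose k)` simplices `S` in `U` with `k` vertices for which
`lk (T ∪ S)` has at least `2 (n - |T| - k) + (i - k)` vertices, and `lk S` has at least `3 (i - k)` vertices in `U` -/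
def Few (n : ℕ) {V : Type} [Fintype V] [LinearOrder V] (G : SimpleGraph V) (T U : Finset V) (i : ℕ) : Prop :=
  ∃ k ≤ i, {S : Finset V | Face G U k S ∧ 2 * (n - (T.card + k)) + (i - k) ≤ lkCard G Finset.univ (T ∪ S) ∧
    3 * (i - k) ≤ lkCard G U S}.ncard < 3 ^ k * i.choose k

/-- the smallest family of triples `(T, U, i)` which contains the triples with `Few n G T U i`, and which contains
`(T, U, i + 1)` if for some `v ∈ U` it contains `(T, U \ {v}, i + 1)` and `(T ∪ {v}, U ∩ lk v, i)` -/
inductive Thin (n : ℕ) {V : Type} [Fintype V] [LinearOrder V] (G : SimpleGraph V) :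
    Finset V → Finset V → ℕ → Prop
  | few (T U : Finset V) (i : ℕ) : Few n G T U i → Thin n G T U i
  | add (T U U' : Finset V) (v : V) (i : ℕ) : v ∈ U → (∀ x, x ∈ U' ↔ x ∈ U ∧ G.Adj v x) →
      Thin n G T (U.erase v) (i + 1) → Thin n G (insert v T) U' i → Thin n G T U (i + 1)

/-- Q1 for the special subgroups of `W G` (with the consequence for the Betti numbers of subgroups of finite index),
the Singer conjecture for `W G` and the sign of its Euler characteristic -/
def Half (n : ℕ) {V : Type} [Fintype V] [LinearOrder V] (G : SimpleGraph V) : Prop :=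
  (∀ (A : Finset V) (i : ℕ), n < 2 * i → L2Van (G.induce (A : Set V)) i) ∧
  (∀ (A : Finset V) (ε : ℝ), 0 < ε → ∃ E : Finset (W (G.induce (A : Set V))),
    (1 : W (G.induce (A : Set V))) ∉ E ∧ ∀ H : Subgroup (W (G.induce (A : Set V))), H.FiniteIndex →
      (∀ g ∈ E, ∀ x : W (G.induce (A : Set V)), x * g * x⁻¹ ∉ H) → ∀ i : ℕ, n < 2 * i →
        (Module.finrank ℝ (HInv (G.induce (A : Set V)) H i) : ℝ) ≤ ε * H.index) ∧
  (∀ i : ℕ, 2 * i ≠ n → L2Van G i) ∧ ∀ d : ℕ, n = 2 * d → 0 ≤ (-1 : ℚ) ^ d * chiW G

/-- **Result.** (1) Let `b_i^(2)(W_A) ≠ 0`. Then there are for each `k ≤ i` at least `3^k (i choose k)` simplices `T`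
in `A` with `k` vertices such that `b_(i-k)^(2)(W_B) ≠ 0` for some set `B ⊆ A` of at least `3 (i - k)` vertices of the
link of `T`. For `i ≥ 1` there is a set `B ⊆ A` with at least `3 i` elements, with `b_i^(2)(W_B) ≠ 0` and
`b_(i-1)^(2)(W_(B ∩ lk v)) ≠ 0` for all `v ∈ B`. (2) The numbers are attained for all `d = i`: there is a
graph with exactly `3^k (d choose k)` cliques with `k` elements for all `k`, whose right-angled Coxeter group has
`b_i^(2) ≠ 0` if and only if `i = d`. (3) If for some `k ≤ i` there are fewer than `3^k (i choose k)` simplices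
with `k` vertices in `A` and at least `3 (i - k)` vertices of `A` in the link, then the `i`-th Betti numbers of the
subgroups of finite index of `W_A` without conjugates of elements of a finite set are at most `ε` times the index.
(4) Let `L` be a flag homology sphere of dimension `n - 1`, `T` a simplex and `U` a set of vertices of its link.
If `(T, U, i)` is in the family `Thin n G`, in particular if `Few n G T U i`, then `b_i^(2)(W_U) = 0`.
(5) Let `L` be a flag homology sphere of dimension `n - 1`. Suppose that for each simplex `T` with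
`n - |T| = 2 m + 1 ≥ 5` and for the set `U` of the vertices `v` of the link of `T` with `χ(W_(lk (T ∪ v))) ≠ 0` the
triple `(T, U, m + 1)` is in the family `Thin n G`. Then `b_i^(2)(W_A) = 0` for all sets `A` of vertices and all
`i > n / 2`, the `i`-th Betti numbers of the subgroups of finite index of `W_A` without conjugates of elements of a
finite set are at most `ε` times the index, `b_i^(2)(W) = 0` for all `i ≠ n / 2`, and `(-1)^(n/2) χ(W) ≥ 0` if `n` is
even. (6) The conclusion of (5) also holds if for all these `T` the set `U` can be numbered such that each `v ∈ U` has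
at most `3 m - 1` neighbours `u ∈ U` with smaller numbers for which the link of `T ∪ {u, v}` has at least `5 m - 3`
vertices. -/
theorem result :
    (∀ (V : Type) [Fintype V] [LinearOrder V] (G : SimpleGraph V) (A : Finset V) (i : ℕ),
      ¬ L2Van (G.induce (A : Set V)) i →
      (∀ k ≤ i, 3 ^ k * i.choose k ≤ {T : Finset V | Face G A k T ∧ ∃ B : Finset V, B ⊆ A ∧
        (∀ b ∈ B, ∀ t ∈ T, G.Adj b t) ∧ 3 * (i - k) ≤ B.card ∧
        ¬ L2Van (G.induce (B : Set V)) (i - k)}.ncard) ∧
      (1 ≤ i → ∃ B : Finset V, B ⊆ A ∧ 3 * i ≤ B.card ∧ ¬ L2Van (G.induce (B : Set V)) i ∧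
        ∀ v ∈ B, ∀ C : Finset V, (∀ x, x ∈ C ↔ x ∈ B ∧ G.Adj v x) →
          ¬ L2Van (G.induce (C : Set V)) (i - 1))) ∧
    (∀ d : ℕ, ∃ (V : Type) (_ : Fintype V) (_ : LinearOrder V) (G : SimpleGraph V),
      (∀ i : ℕ, L2Van G i ↔ i ≠ d) ∧
      ∀ k : ℕ, {T : Finset V | G.IsClique (T : Set V) ∧ T.card = k}.ncard = 3 ^ k * d.choose k) ∧
    (∀ (V : Type) [Fintype V] [LinearOrder V] (G : SimpleGraph V) (A : Finset V) (ε : ℝ), 0 < ε →
      ∃ E : Finset (W (G.induce (A : Set V))), (1 : W (G.induce (A : Set V))) ∉ E ∧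
        ∀ H : Subgroup (W (G.induce (A : Set V))), H.FiniteIndex →
          (∀ g ∈ E, ∀ x : W (G.induce (A : Set V)), x * g * x⁻¹ ∉ H) → ∀ i : ℕ,
            (∃ k ≤ i, {T : Finset V | Face G A k T ∧ 3 * (i - k) ≤ lkCard G A T}.ncard < 3 ^ k * i.choose k) →
              (Module.finrank ℝ (HInv (G.induce (A : Set V)) H i) : ℝ) ≤ ε * H.index) ∧
    (∀ (n : ℕ) (V : Type) [Fintype V] [LinearOrder V] (G : SimpleGraph V), HSph n G →
      ∀ (T U : Finset V) (i : ℕ), G.IsClique (T : Set V) → (∀ u ∈ U, u ∈ lk G T) → Thin n G T U i →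
        L2Van (G.induce (U : Set V)) i) ∧
    (∀ (n : ℕ) (V : Type) [Fintype V] [LinearOrder V] (G : SimpleGraph V), HSph n G →
      (∀ (T : Finset V) (m : ℕ), G.IsClique (T : Set V) → T.card + (2 * m + 1) = n → 2 ≤ m →
        ∀ U : Finset V, (∀ v, v ∈ U ↔ v ∈ lk G T ∧ chiL G (insert v T) ≠ 0) → Thin n G T U (m + 1)) →
      Half n G) ∧
    (∀ (n : ℕ) (V : Type) [Fintype V] [LinearOrder V] (G : SimpleGraph V), HSph n G →
      (∀ (T : Finset V) (m : ℕ), G.IsClique (T : Set V) → T.card + (2 * m + 1) = n → 2 ≤ m →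
        ∀ U : Finset V, (∀ v, v ∈ U ↔ v ∈ lk G T ∧ chiL G (insert v T) ≠ 0) →
          ∃ r : V → ℕ, Set.InjOn r (U : Set V) ∧ ∀ v ∈ U,
            {u | u ∈ U ∧ G.Adj v u ∧ r u < r v ∧
              5 * m - 3 ≤ lkCard G Finset.univ (insert u (insert v T))}.ncard ≤ 3 * m - 1) →
      Half n G) := by
  classical
  have hnot : ∀ {V : Type} [Fintype V] [LinearOrder V] {G : SimpleGraph V} {A : Finset V} {i : ℕ},
      ¬ L2Van (G.induce (A : Set V)) i → ¬ LV (G.induce (A : Set V)) i := fun h h' => h (h' _ _)
  have hfin : ∀ {V : Type} [Fintype V] (B : Set V), ∃ Bf : Finset V, (Bf : Set V) = B :=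
    fun B => ⟨(Set.toFinite B).toFinset, Set.Finite.coe_toFinset _⟩
  have hmain : ∀ {V : Type} [Fintype V] [LinearOrder V] {G : SimpleGraph V} {A : Finset V} {i k : ℕ},
      ¬ L2Van (G.induce (A : Set V)) i → k ≤ i → 3 ^ k * i.choose k ≤ {T : Finset V | Face G A k T ∧
        ∃ B : Finset V, B ⊆ A ∧ (∀ b ∈ B, ∀ t ∈ T, G.Adj b t) ∧ 3 * (i - k) ≤ B.card ∧
        ¬ L2Van (G.induce (B : Set V)) (i - k)}.ncard := by
    intro V _ _ G A i k h hk
    obtain ⟨j, rfl⟩ : ∃ j, i = k + j := ⟨i - k, by omega⟩
    refine (count G j k (A : Set V) (hnot h)).trans (Set.ncard_le_ncard ?_ (Set.toFinite _))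
    rintro T ⟨hT1, hT2, hT3, B, hB1, hB2, hB3⟩
    obtain ⟨Bf, rfl⟩ := hfin B
    rw [Nat.add_sub_cancel_left]
    refine ⟨⟨hT1, Finset.coe_subset.1 hT2, hT3⟩, Bf, Finset.coe_subset.1 hB1, hB2, ?_,
      fun h' => hB3 (Pool.Agent.N13.EU.lv_of h')⟩
    rcases Nat.eq_zero_or_pos j with rfl | hj
    · simp
    · by_contra hc
      exact hB3 (lv_few G _ j (Bf : Set V) (Set.ncard_coe_finset Bf) hj (by omega))
  have hlk : ∀ {V : Type} (G : SimpleGraph V) (A T : Finset V), lkCard G A T = ((A : Set V) ∩ lk G T).ncard :=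
    fun _ _ _ => rfl
  have hlku : ∀ {V : Type} [Fintype V] (G : SimpleGraph V) (T : Finset V),
      lkCard G Finset.univ T = (lk G T).ncard := by
    intro V _ G T
    rw [hlk, Finset.coe_univ, Set.univ_inter]
  have hfew : ∀ {n : ℕ} {V : Type} [Fintype V] [LinearOrder V] {G : SimpleGraph V}, HSph n G →
      ∀ {T U : Finset V} {i : ℕ}, G.IsClique (T : Set V) → (∀ u ∈ U, u ∈ lk G T) → Few n G T U i →
        LV (G.induce (U : Set V)) i := by
    rintro n V _ _ G hS T U i hT hU ⟨k, hk, h⟩
    by_contra hn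
    have h1 := count_large hS T hT (U : Set V) hU k i hk hn
    refine absurd (h1.trans (Set.ncard_le_ncard ?_ (Set.toFinite _))) (not_le.2 h)
    rintro S ⟨hS1, hS2, hS3, hS4, hS5⟩
    exact ⟨⟨hS1, Finset.coe_subset.1 hS2, hS3⟩, by rwa [hlku], hS5⟩
  have hthin : ∀ {n : ℕ} {V : Type} [Fintype V] [LinearOrder V] {G : SimpleGraph V}, HSph n G →
      ∀ {T U : Finset V} {i : ℕ}, Thin n G T U i → G.IsClique (T : Set V) → (∀ u ∈ U, u ∈ lk G T) →
        LV (G.induce (U : Set V)) i := by
    intro n V _ _ G hS T U i h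
    induction h with
    | few T U i h => exact fun hT hU => hfew hS hT hU h
    | add T U U' v i hv hU' _ _ ih1 ih2 =>
      intro hT hU
      refine lv_add G (U : Set V) v hv (i + 1) ?_ fun j hj => ?_
      · have h1 := ih1 hT fun u hu => hU u (Finset.mem_of_mem_erase hu)
        rwa [Finset.coe_erase] at h1
      · have hj' : j = i := by omega
        subst hj'
        refine lv_set ?_ (ih2 (clique_ins hT (hU v hv)) fun u hu t ht => ?_)
        · ext x
          rw [Finset.mem_coe, hU']
          rfl
        · rw [Finset.mem_insert] at ht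
          rcases ht with rfl | ht
          · exact ((hU' u).1 hu).2.symm
          · exact hU u ((hU' u).1 hu).1 t ht
  have hhalf : ∀ {n : ℕ} {V : Type} [Fintype V] [LinearOrder V] {G : SimpleGraph V}, HSph n G →
      Hered n G → Half n G := by
    intro n V _ _ G hS hH
    have h0 : ∀ (A : Finset V) (i : ℕ), n < 2 * i → L2Van (G.induce (A : Set V)) i := fun A i hi =>
      hH ∅ (by simp) A (fun v _ u hu => absurd hu (Finset.notMem_empty u)) i (by rw [Finset.card_empty]; omega)
    have h2 : ∀ i : ℕ, 2 * i ≠ n → L2Van G i := fun i hi => singer_hered hS hH i hi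
    refine ⟨h0, fun A ε hε => Pool.Agent.R703.MO.growth_set (G.induce (A : Set V)) (fun i => n < 2 * i)
      (fun i hi => h0 A i hi) ε hε, h2, ?_⟩
    rintro d rfl
    exact chi_sign (m := d) G fun i hi => h2 i (by omega)
  refine ⟨?_, sharp, ?_, ?_, ?_, ?_⟩
  · intro V _ _ G A i h
    refine ⟨fun k hk => hmain h hk, fun hi => ?_⟩
    obtain ⟨j, rfl⟩ : ∃ j, i = j + 1 := ⟨i - 1, by omega⟩
    obtain ⟨B, hB1, hB2, hB4, hB3⟩ := core G (A : Set V) j (hnot h)
    obtain ⟨Bf, rfl⟩ := hfin B
    rw [Set.ncard_coe_finset] at hB2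
    refine ⟨Bf, Finset.coe_subset.1 hB1, hB2, fun h' => hB4 (Pool.Agent.N13.EU.lv_of h'), fun v hv C hC h' => ?_⟩
    rw [Nat.add_sub_cancel] at h'
    refine hB3 v hv (lv_set ?_ (Pool.Agent.N13.EU.lv_of h'))
    ext x
    rw [Finset.mem_coe, hC]
    rfl
  · intro V _ _ G A ε hε
    refine Pool.Agent.R703.MO.growth_set (G.induce (A : Set V)) (fun i => ∃ k ≤ i, {T : Finset V | Face G A k T ∧
      3 * (i - k) ≤ lkCard G A T}.ncard < 3 ^ k * i.choose k) ?_ ε hε
    rintro i ⟨k, hk, h⟩
    by_contra hn
    refine absurd ((hmain hn hk).trans (Set.ncard_le_ncard ?_ (Set.toFinite _))) (not_le.2 h)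
    rintro T ⟨hT, B, hB1, hB2, hB3, -⟩
    refine ⟨hT, hB3.trans ?_⟩
    rw [hlk, ← Set.ncard_coe_finset]
    exact Set.ncard_le_ncard (fun x hx => ⟨hB1 hx, hB2 x hx⟩) (Set.toFinite _)
  · exact fun n V _ _ G hS T U i hT hU h => hthin hS h hT hU _ _
  · intro n V _ _ G hS hyp
    refine hhalf hS ((Pool.Agent.N13.PL.hered_iff2 Pool.Agent.N13.PL.three hS).2 fun T m hT hm hm' U hU => ?_)
    exact hthin hS (hyp T m hT hm hm' U hU) hT (fun u hu => ((hU u).1 hu).1) _ _
  · intro n V _ _ G hS hyp
    refine hhalf hS ((Pool.Agent.N13.PL.hered_iff2 Pool.Agent.N13.PL.three hS).2 fun T m hT hm hm' U hU => ?_)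
    obtain ⟨r, hr, h⟩ := hyp T m hT hm hm' U hU
    refine ordered hS T hT (U : Set V) (fun u hu => ((hU u).1 hu).1) m r hr (fun v hv => Or.inr ⟨1, by omega, ?_⟩) _ _
    rw [pow_one, Nat.choose_one_right]
    refine lt_of_le_of_lt ?_ (show 3 * m - 1 < 3 * m by omega)
    refine le_trans ?_ (h v hv)
    refine le_trans (Set.ncard_le_ncard (t := (fun u : V => ({u} : Finset V)) ''
      {u | u ∈ U ∧ G.Adj v u ∧ r u < r v ∧
        5 * m - 3 ≤ lkCard G Finset.univ (insert u (insert v T))}) ?_ (Set.toFinite _))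
      (Set.ncard_image_le (Set.toFinite _))
    rintro S ⟨-, hS2, hS3, hS4, -⟩
    obtain ⟨u, rfl⟩ := Finset.card_eq_one.1 hS3
    have hu := hS2 (Finset.mem_coe.2 (Finset.mem_singleton_self u))
    refine ⟨u, ⟨hu.1, hu.2.1, hu.2.2, ?_⟩, rfl⟩
    rw [hlku]
    have e : insert v T ∪ {u} = insert u (insert v T) := by
      ext x
      simp only [Finset.mem_union, Finset.mem_insert, Finset.mem_singleton]
      tauto
    rw [e] at hS4
    omega

end Pool.Agent.Results.MP_ea75ba_gt.FaceNumbers
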