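import Mathlib
import Pool.Agent.U297.GD.Main

/-!
# The degree of the `γ`-polynomial is the largest degree with nonzero `ℓ²`-homology of special subgroups

Let the flag complex `L` of the finite graph `G` be a real homology manifold with the real homology of the
`(n-1)`-sphere (`HSph n G`). If `L` is a combinatorial sphere then every special subgroup `W_A = W (G.induce A)` of
the right-angled Coxeter group `W G` acts properly and cocompactly on a contractible `n`-manifold with boundary, so
`cadim (W_A) ≤ n` and Q1 predicts that the `ℓ²`-homology of `W_A` vanishes above `n / 2`.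

We determine the largest degree in which the `ℓ²`-homology of a special subgroup does not vanish. It is not `n / 2` in
general: it is the degree `g ≤ n / 2` of the `γ`-polynomial of `L`. The inequality `≥` is proved for all `L`, without
any hypothesis; the equality is proved for all `L` for which the vanishing above the middle dimension is known for
the full subcomplexes of the links, and its validity for all `L` is equivalent to the Singer conjecture for the
right-angled Coxeter groups.

Proof. The Taylor coefficient of order `n - 2 g` of the `f`-polynomial at `-1/2` is, on the one hand, the sum of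
the Euler characteristics `χ(W_lk T)` over the simplices `T` with `n - 2 g` vertices, and on the other hand
`(-1)^g 2^(n - 2 g) / 4^g` times the leading coefficient of the `γ`-polynomial. So one of the `W_lk T` has
nonzero `ℓ²`-homology, and by duality in a degree at least `g`, as `lk T` is a homology sphere of dimension `2 g - 1`.
The vanishing above `g` follows from the library (project EU of helper13: the lower Taylor coefficients are sums of
numbers of one sign, so all `χ(W_lk T)`, `|T| < n - 2 g`, are zero).
-/

set_option autoImplicit false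

namespace Pool.Agent.Results.MP_ea75ba_gt.GammaDegree

open Pool.Agent.W907.SG Pool.Agent.W907.SM Pool.Agent.TH652.Above Pool.Agent.Y132.SI Pool.Agent.N13.EU
open Pool.Agent.U297.GD
open Polynomial (X C)

/-- `g` is the degree and `c 0, …, c g` are the coefficients of the `γ`-polynomial of the flag complex of `G`, of
dimension `n - 1`: the `f`-polynomial `∑ X ^ |S|` (over all simplices `S`) is
`∑ c i X ^ i (1 + X) ^ i (1 + 2 X) ^ (n - 2 i)`, `i ≤ g`, and `c g ≠ 0` -/
def GammaOf (n : ℕ) {V : Type} [Fintype V] (G : SimpleGraph V) (g : ℕ) (c : ℕ → ℚ) : Prop :=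
  2 * g ≤ n ∧ c g ≠ 0 ∧ fpoly G =
    ∑ i ∈ Finset.range (g + 1), C (c i) * (X ^ i * (1 + X) ^ i * (1 + 2 * X) ^ (n - 2 * i))

/-- **Result.** Let `L` be a flag homology sphere of dimension `n - 1`. (1) It has a `γ`-polynomial; let `g` be its
degree and `c` its coefficients. (2) The sum of the Euler characteristics `χ(W_lk T)` over the simplices `T` with
`n - 2 g` vertices is `(-1)^g 2^(n - 2 g) / 4^g c_g`; for one of these `T` the group `W_lk T` has nonzero Euler
characteristic and nonzero `ℓ²`-homology in some degree `≥ g`; and `L` has at least `2 n + g` vertices. (3) Suppose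
that for all simplices `T` (also the empty one) and all sets `A` of vertices of the link of `T` the `ℓ²`-homology of
`W_A` vanishes above `(n - |T|) / 2` (`Hered n G`), for example that `G` is in the class `AM n`, or `n ≤ 4`. Then the
`ℓ²`-homology of `W_A` vanishes in all degrees `i > g` for all sets `A` of vertices, it is nonzero in the degree `g`
for some `A`, and the `i`-th Betti numbers, `i > g`, of the subgroups of finite index of `W_A` without conjugates of
elements of a finite set are at most `ε` times the index. For the simplices `T` with `n - 2 g` vertices the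
`ℓ²`-homology of `W_lk T` is concentrated in the degree `g`, `(-1)^g χ(W_lk T) ≥ 0`, and it vanishes if and only if
`χ(W_lk T) = 0`. The leading coefficient `c_g` is positive. (4) For all `N` the Singer conjecture for the
right-angled Coxeter groups of all flag homology spheres of dimension less than `N` is equivalent to the vanishing
of the `ℓ²`-homology of all their special subgroups above the degree of the `γ`-polynomial. -/
theorem result :
    (∀ (n : ℕ) (V : Type) [Fintype V] [LinearOrder V] (G : SimpleGraph V), HSph n G →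
      ∃ (g : ℕ) (c : ℕ → ℚ), GammaOf n G g c) ∧
    (∀ (n : ℕ) (V : Type) [Fintype V] [LinearOrder V] (G : SimpleGraph V), HSph n G →
      ∀ (g : ℕ) (c : ℕ → ℚ), GammaOf n G g c →
        chiSum G (n - 2 * g) = (-1) ^ g * (2 ^ (n - 2 * g) / 4 ^ g) * c g ∧
        (∃ T A : Finset V, G.IsClique (T : Set V) ∧ T.card + 2 * g = n ∧
          (∀ v, v ∈ A ↔ ∀ t ∈ T, G.Adj v t) ∧ chiL G T ≠ 0 ∧
          ∃ i, g ≤ i ∧ ¬ L2Van (G.induce (A : Set V)) i) ∧
        2 * n + g ≤ Fintype.card V) ∧
    (∀ (n : ℕ) (V : Type) [Fintype V] [LinearOrder V] (G : SimpleGraph V), HSph n G →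
      (Hered n G ∨ AM n G ∨ n ≤ 4) → ∀ (g : ℕ) (c : ℕ → ℚ), GammaOf n G g c →
        (∀ (A : Finset V) (i : ℕ), g < i → L2Van (G.induce (A : Set V)) i) ∧
        (∃ A : Finset V, ¬ L2Van (G.induce (A : Set V)) g) ∧
        (∀ (A : Finset V) (ε : ℝ), 0 < ε → ∃ E : Finset (W (G.induce (A : Set V))),
          (1 : W (G.induce (A : Set V))) ∉ E ∧ ∀ H : Subgroup (W (G.induce (A : Set V))), H.FiniteIndex →
            (∀ e ∈ E, ∀ x : W (G.induce (A : Set V)), x * e * x⁻¹ ∉ H) → ∀ i : ℕ, g < i →
              (Module.finrank ℝ (HInv (G.induce (A : Set V)) H i) : ℝ) ≤ ε * H.index) ∧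
        (∀ T A : Finset V, G.IsClique (T : Set V) → T.card + 2 * g = n →
          (∀ v, v ∈ A ↔ ∀ t ∈ T, G.Adj v t) →
          0 ≤ (-1 : ℚ) ^ g * chiL G T ∧ (∀ i, i ≠ g → L2Van (G.induce (A : Set V)) i) ∧
          (chiL G T = 0 ↔ L2Van (G.induce (A : Set V)) g)) ∧
        0 < c g) ∧
    (∀ N : ℕ,
      (∀ n ≤ N, ∀ (V : Type) [Fintype V] [LinearOrder V] (G : SimpleGraph V), HSph n G →
        ∀ i : ℕ, 2 * i ≠ n → L2Van G i) ↔
      ∀ n ≤ N, ∀ (V : Type) [Fintype V] [LinearOrder V] (G : SimpleGraph V), HSph n G →
        ∀ (g : ℕ) (c : ℕ → ℚ), GammaOf n G g c →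
          ∀ (A : Finset V) (i : ℕ), g < i → L2Van (G.induce (A : Set V)) i) := by
  have hlk : ∀ {V : Type} {G : SimpleGraph V} {T A : Finset V}, (∀ v, v ∈ A ↔ ∀ t ∈ T, G.Adj v t) →
      (A : Set V) = lk G T := by
    intro V G T A h
    ext v
    rw [Finset.mem_coe, h]
    rfl
  refine ⟨?_, ?_, ?_, ?_⟩
  · intro n V _ _ G hS
    obtain ⟨g, c, h1, h2, h3⟩ := exists_gamma hS
    exact ⟨g, c, h1, h2, h3⟩
  · rintro n V _ _ G hS g c ⟨h1, h2, h3⟩
    refine ⟨sum_top h1 h3, ?_, gamma_one hS h1 h2 h3⟩
    obtain ⟨T, hT, hTg, hc, i, hi, hn⟩ := uncond hS h1 h2 h3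
    obtain ⟨A, hA⟩ : ∃ A : Finset V, (A : Set V) = lk G T := ⟨(Set.toFinite (lk G T)).toFinset, by simp⟩
    refine ⟨T, A, hT, hTg, fun v => ?_, hc, i, hi, fun h => hn ?_⟩
    · rw [← Finset.mem_coe, hA]
      rfl
    · rw [← hA]
      exact Pool.Agent.N13.EU.lv_of h
  · rintro n V _ _ G hS hyp g c ⟨h1, h2, h3⟩
    have hH : Hered n G := by
      rcases hyp with h | h | h
      · exact h
      · exact hered_AM h
      · exact hered_four hS h
    obtain ⟨T, hT, hTg, hc, -⟩ := uncond hS h1 h2 h3
    refine ⟨fun A i hi => van_top hS hH h1 h3 A i hi, ?_, fun A ε hε => growth_top hS hH h1 h3 A ε hε,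
      ?_, pos_top hS hH h1 h2 h3⟩
    · obtain ⟨A, hA⟩ : ∃ A : Finset V, (A : Set V) = lk G T := ⟨(Set.toFinite (lk G T)).toFinset, by simp⟩
      refine ⟨A, fun h => hc ?_⟩
      have h5 := Pool.Agent.N13.EU.lv_of h
      rw [hA] at h5
      exact (link_top hS hH hT hTg).2.2.2 h5
    · intro T A hT hTg hA
      obtain ⟨h4, h5, h6⟩ := link_top hS hH hT hTg
      have e := hlk hA
      refine ⟨h4, fun i hi => ?_, ?_⟩
      · have := h5 i hi
        rw [← e] at this
        exact this _ _
      · rw [h6, ← e]
        exact ⟨fun h => h _ _, fun h => Pool.Agent.N13.EU.lv_of h⟩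
  · intro N
    have h := singer_iff_gamma N
    constructor
    · intro h1 n hn V _ _ G hS g c hg A i hi
      exact h.1 h1 n hn V G hS g c hg.1 hg.2.1 hg.2.2 A i hi
    · intro h1
      exact h.2 fun n hn V _ _ G hS g c h2 h3 h4 A i hi => h1 n hn V G hS g c ⟨h2, h3, h4⟩ A i hi

end Pool.Agent.Results.MP_ea75ba_gt.GammaDegree
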