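import Pool.Agent.U410.ES.Em

/-!
# `ℓ²`-homology above half the dimension for special subgroups over flag spheres with few bad vertices

Let the flag complex `L` of the finite graph `G` be a real homology manifold with the real homology of the
`(n-1)`-sphere (`HSph n G`). If `L` is a combinatorial sphere then every special subgroup `W_A = W (G.induce A)` of the
right-angled Coxeter group `W G` acts properly and cocompactly on a contractible `n`-manifold with boundary (a
regular neighbourhood of its Davis complex in the Davis manifold of `L`). Q1 predicts that its `ℓ²`-homology vanishes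
above `n / 2` if `n` is the cocompact action dimension.

We prove this vanishing for all full subcomplexes `A` of the spheres `L` in the class `Em`. For `n = 2 m + 2` it is
enough that every simplex of `L` with `m + 2` vertices has a vertex whose link is in the class; nothing is assumed
for the links of the other vertices, in particular their `ℓ²`-homology may be unknown. The links (of odd rank) are in the
class if their join factors have dimension at most three or at most `3 e - 1` vertices (`e - 1` being the dimension of the
factor), or if the links of their edges are in the class and the non-neighbours of some vertex span a tree.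

For example, let `L` be a flag homology 5-sphere such that among any four pairwise adjacent vertices there is one
whose link `K` has at most 14 vertices, or is a join, or has a vertex `v` such that each triangle of `K` contains `v` or
a neighbour of `v`. Then `b_i(W_A) = 0` for all `i ≥ 4` and all `A`, and the Singer conjecture holds for `W`.
-/

set_option autoImplicit false

namespace Pool.Agent.Results.MP_ea75ba_gt.LargeSimplices

open Pool.Agent.W907.SG Pool.Agent.TH652.Above Pool.Agent.Y132.SI
open Pool.Agent.U410.ES (Em van_of_em)

/-- **Result.** Let the flag complex of `G` be a real homology sphere of dimension `n - 1` in the class `Em`.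
(1) For all sets `A` of vertices and all `i > n / 2` the reduced `ℓ²`-homology of the Davis complex of `W_A` vanishes in
the degree `i`. (2) For each `A` and each `ε > 0` there is a finite set `E` of nontrivial elements of `W_A` such that for
every subgroup `H` of finite index of `W_A` which contains no conjugate of an element of `E` and all `i > n / 2` the
`i`-th real Betti number of `H` is at most `ε [W_A : H]`. (3) The reduced `ℓ²`-homology of the Davis complex of `W G`
vanishes in all degrees `i ≠ n / 2`. (4) If `n = 2 m` then `(-1)^m χ(W G) ≥ 0`. -/
theorem result : ∀ (n : ℕ) (V : Type) [Fintype V] [LinearOrder V] (G : SimpleGraph V), HSph n G →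
    Em G n (Finset.univ : Finset V) →
    (∀ (A : Finset V) (i : ℕ), n < 2 * i → L2Van (G.induce (A : Set V)) i) ∧
    (∀ (A : Finset V) (ε : ℝ), 0 < ε → ∃ E : Finset (W (G.induce (A : Set V))),
      (1 : W (G.induce (A : Set V))) ∉ E ∧ ∀ H : Subgroup (W (G.induce (A : Set V))), H.FiniteIndex →
        (∀ e ∈ E, ∀ x : W (G.induce (A : Set V)), x * e * x⁻¹ ∉ H) → ∀ i : ℕ, n < 2 * i →
          (Module.finrank ℝ (HInv (G.induce (A : Set V)) H i) : ℝ) ≤ ε * H.index) ∧
    (∀ i : ℕ, 2 * i ≠ n → L2Van G i) ∧
    (∀ m : ℕ, n = 2 * m → 0 ≤ (-1 : ℚ) ^ m * chiW G) := by
  intro n V _ _ G hS hL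
  have h0 : ∀ (A : Finset V) (i : ℕ), n < 2 * i → L2Van (G.induce (A : Set V)) i :=
    fun A i hi => van_of_em hS hL A i hi
  have h1 : ∀ i : ℕ, 2 * i ≠ n → L2Van G i := fun i hi => by
    refine singer_of_above hS (fun j hj => ?_) i hi
    have h2 := Pool.Agent.N13.EU.lv_of (h0 Finset.univ j hj)
    rw [Finset.coe_univ, lv_univ] at h2
    exact h2 _ _
  refine ⟨h0, fun A ε hε => Pool.Agent.R703.MO.growth_set (G.induce (A : Set V))
    (fun i => n < 2 * i) (fun i hi => h0 A i hi) ε hε, h1, ?_⟩
  rintro m rfl
  exact chi_sign G fun i hi => h1 i (by omega)

end Pool.Agent.Results.MP_ea75ba_gt.LargeSimplices
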