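import Pool.Agent.U297.GD.Main
import Pool.Agent.U410.ES.Sm

/-!
# `ℓ²`-homology above half the cocompact action dimension: special subgroups in flag spheres with small factors or links

Let the flag complex `L` of the finite graph `G` be a real homology manifold with the real homology of the
`(n-1)`-sphere (`HSph n G`). If `L` is a combinatorial sphere, `T` is a face of `L` (possibly empty) and `A` is a set of
vertices of the link of `T` then the special subgroup `W_A = W (G.induce A)` of the right-angled Coxeter group `W G` acts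
properly and cocompactly on a contractible manifold of dimension `n - |T|` with boundary, so `cadim (W_A) ≤ n - |T|` and
Q1 predicts that the `ℓ²`-homology of `W_A` vanishes above `(n - |T|) / 2`.

We prove this for the spheres in the class `Sm`, and we determine the largest degree in which some `W_A` has nonzero
`ℓ²`-homology: it is the degree `g` of the `γ`-polynomial of `L`.
-/

set_option autoImplicit false

namespace Pool.Agent.Results.MP_ea75ba_gt.SmallFactors

open Pool.Agent.W907.SG Pool.Agent.W907.SM Pool.Agent.TH652.Above Pool.Agent.Y132.SI Pool.Agent.N13.EU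
open Pool.Agent.U297.GD
open Pool.Agent.U410.ES (Sm hered_of_sm)
open Polynomial (X C)

/-- `g` is the degree and `c 0, …, c g` are the coefficients of the `γ`-polynomial of the flag complex of `G`, of
dimension `n - 1`: the `f`-polynomial `∑ X ^ |S|` (over all simplices `S`) is
`∑ c i X ^ i (1 + X) ^ i (1 + 2 X) ^ (n - 2 i)`, `i ≤ g`, and `c g ≠ 0` -/
def GammaOf (n : ℕ) {V : Type} [Fintype V] (G : SimpleGraph V) (g : ℕ) (c : ℕ → ℚ) : Prop :=
  2 * g ≤ n ∧ c g ≠ 0 ∧ fpoly G =
    ∑ i ∈ Finset.range (g + 1), C (c i) * (X ^ i * (1 + X) ^ i * (1 + 2 * X) ^ (n - 2 * i))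

/-- **Result.** Let `L` be a flag homology sphere of dimension `n - 1` in the class `Sm`. (1) For each simplex `T` (also
the empty one) and each set `A` of vertices of the link of `T` there are no nonzero `ℓ²` harmonic `i`-chains on the
Davis complex of `W_A` for `i > (n - |T|) / 2`. (2) `L` has a `γ`-polynomial; let `g` be its degree and `c` its
coefficients. Then `c g > 0`; the `ℓ²`-homology of `W_A` vanishes in all degrees `i > g` for all sets `A` of vertices, it
is nonzero in the degree `g` for some `A`, which is the link of a simplex with `n - 2 g` vertices; and for each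
`ε > 0` and `A` there is a finite set `E` of nontrivial elements of `W_A` such that the `i`-th real Betti number of each
subgroup `H` of finite index of `W_A` which contains no conjugate of an element of `E` is at most `ε [W_A : H]` for all
`i > g` (also for all `i > (n - |T|) / 2`, if `A` is in the link of `T`). -/
theorem result : ∀ (n : ℕ) (V : Type) [Fintype V] [LinearOrder V] (G : SimpleGraph V), HSph n G →
    Sm G n (Finset.univ : Finset V) →
    (∃ (g : ℕ) (c : ℕ → ℚ), GammaOf n G g c) ∧
    ∀ (g : ℕ) (c : ℕ → ℚ), GammaOf n G g c → 0 < c g ∧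
      (∀ T A : Finset V, G.IsClique (T : Set V) → (∀ a ∈ A, ∀ t ∈ T, G.Adj t a) →
        (∀ i : ℕ, (n < 2 * i + T.card ∨ g < i) → L2Van (G.induce (A : Set V)) i) ∧
        ∀ ε : ℝ, 0 < ε → ∃ E : Finset (W (G.induce (A : Set V))), (1 : W (G.induce (A : Set V))) ∉ E ∧
          ∀ H : Subgroup (W (G.induce (A : Set V))), H.FiniteIndex →
            (∀ e ∈ E, ∀ x : W (G.induce (A : Set V)), x * e * x⁻¹ ∉ H) →
            ∀ i : ℕ, (n < 2 * i + T.card ∨ g < i) →
              (Module.finrank ℝ (HInv (G.induce (A : Set V)) H i) : ℝ) ≤ ε * H.index) ∧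
      ∃ T A : Finset V, G.IsClique (T : Set V) ∧ T.card + 2 * g = n ∧ (∀ v, v ∈ A ↔ ∀ t ∈ T, G.Adj v t) ∧
        ¬ L2Van (G.induce (A : Set V)) g ∧ ∀ i : ℕ, i ≠ g → L2Van (G.induce (A : Set V)) i := by
  intro n V _ _ G hS hL
  have hH : Hered n G := hered_of_sm hS hL
  refine ⟨?_, ?_⟩
  · obtain ⟨g, c, h1, h2, h3⟩ := exists_gamma hS
    exact ⟨g, c, h1, h2, h3⟩
  rintro g c ⟨h1, h2, h3⟩
  refine ⟨pos_top hS hH h1 h2 h3, ?_, ?_⟩
  · intro T A hT hA
    have h : ∀ i : ℕ, (n < 2 * i + T.card ∨ g < i) → L2Van (G.induce (A : Set V)) i := by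
      rintro i (hi | hi)
      · exact hH T hT A (fun a ha t ht => (hA a ha t ht).symm) i hi
      · exact van_top hS hH h1 h3 A i hi
    exact ⟨h, fun ε hε => Pool.Agent.R703.MO.growth_set (G.induce (A : Set V))
      (fun i => n < 2 * i + T.card ∨ g < i) h ε hε⟩
  · obtain ⟨T, hT, hTg, hc, -⟩ := uncond hS h1 h2 h3
    obtain ⟨h4, h5, h6⟩ := link_top hS hH hT hTg
    obtain ⟨A, hA⟩ : ∃ A : Finset V, (A : Set V) = lk G T := ⟨(Set.toFinite (lk G T)).toFinset, by simp⟩
    refine ⟨T, A, hT, hTg, fun v => ?_, fun h => hc ?_, fun i hi => ?_⟩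
    · rw [← Finset.mem_coe, hA]
      rfl
    · have h7 := Pool.Agent.N13.EU.lv_of h
      rw [hA] at h7
      exact h6.2 h7
    · have := h5 i hi
      rw [← hA] at this
      exact this _ _

end Pool.Agent.Results.MP_ea75ba_gt.SmallFactors
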